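import Pool.Agent.Helper57.HX.Sdb
import Pool.Agent.Helper18.FM.GoalsA

/-! FM, packet FDB: bounds of the endomorphism `X = ε h σᴴ Q⁻¹ σ` (copy of `Helper57/HX/Sdb.lean`). -/

open Complex Metric Set Filter Topology MeasureTheory
open scoped ContDiff ComplexConjugate ComplexOrder Manifold Matrix

namespace Pool.Agent.Helper61.FM.FDB

open Pool.Agent.Helper95.Lin Pool.Agent.Helper16.Abund Pool.Agent.Helper92.Orb
  Pool.Agent.Helper10.SP Pool.Agent.Helper95.RK Pool.Agent.Helper57.HS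
  Pool.Agent.Helper15.HS Pool.Agent.Helper15.GS Pool.Agent.Helper57.RBC Pool.Agent.Helper82.HB
open Pool.Agent.Helper57.HX (fac grad_nonneg cs_entry tr_h diag_le entry_mul pt_entry pt_deriv)
open Pool.Agent.Helper18.FM (SF S_FDB)
open Pool.Agent.Helper10.RBC (dn)
open Pool.Agent.Helper45.HS (SmM)
open Pool.Agent.Helper62.HS (frq frq_nonneg frq_eq)
open Pool.Agent.Helper16.HS (sum_split)
open Pool.Agent.Helper56.HS.DBZ (trace_nonneg)

universe u

section fields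

variable {n m : ℕ} {T : Set (Cn n)} {G : Type u} [Group G] {R : G → Cn n → Cn n → Prop}
  {σ : Cn n → Matrix (Fin n) (Fin m) ℂ} {h : Cn n → Matrix (Fin m) (Fin m) ℂ}
  {Q H : Cn n → Matrix (Fin n) (Fin n) ℂ} {x : Cn n}

theorem sm_sigma' (hT : IsOpen T) (hS : SF T R σ h) : SmR σ T := SmR.of_holo hT hS.holo

theorem sm_B' (hT : IsOpen T) (hS : SF T R σ h) (hQ : KEt T R Q) :
    SmR (fun y => h y * (σ y)ᴴ * (Q y)⁻¹) T :=
  SmR.mul (SmR.mul (X := h) hS.smooth (sm_sigma' hT hS).conjTranspose) (K_smooth hQ)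

/-- `cdb l (h σᴴ K) = h τ_lᴴ K`. -/
theorem cdbR_B' (hS : SF T R σ h) (hQ : KEt T R Q) (hx : x ∈ T) (l : Fin n) :
    cdbR l (fun y => h y * (σ y)ᴴ * (Q y)⁻¹) x = h x * (tauS σ h Q l x)ᴴ * (Q x)⁻¹ := by
  have hT := hQ.et.isOpen
  have hs := sm_sigma' hT hS
  rw [cdbR_mul hT hx (SmR.mul (X := h) hS.smooth hs.conjTranspose) (K_smooth hQ) l,
    cdbR_mul hT hx (X := h) hS.smooth hs.conjTranspose l, cdbR_conjTranspose hT hx hs l,
    cdbR_K hQ hx l]
  have h1 : cdbR l h x = h x * (GamE h l x)ᴴ := cdbM_E hT hS.smooth hS.posDef hx l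
  rw [h1]
  unfold tauS
  simp only [Matrix.conjTranspose_sub, Matrix.conjTranspose_add, Matrix.conjTranspose_mul,
    Matrix.mul_sub, Matrix.mul_add, Matrix.sub_mul, Matrix.add_mul, Matrix.mul_neg,
    Matrix.mul_assoc]
  abel

theorem tS_real' (hS : SF T R σ h) (hQ : KEt T R Q) (hx : x ∈ T) :
    ((tS σ h Q x : ℝ) : ℂ) = Matrix.trace (gS σ h x * (Q x)⁻¹) := by
  have h1 := (aaps_rect (hQ.posDef x hx).inv.posSemidef (hS.posDef x hx).posSemidef
    (fun _ => 0) (σ x)).2.2.1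
  refine Complex.ext ?_ ?_
  · rfl
  · rw [Complex.ofReal_im]
    exact h1.symm

theorem sm_core (hS : SF T R σ h) (hQ : KEt T R Q) :
    SmR (fun y => h y * (σ y)ᴴ * (Q y)⁻¹ * σ y) T :=
  SmR.mul (sm_B' hQ.et.isOpen hS hQ) (sm_sigma' hQ.et.isOpen hS)

theorem sm_XS (hS : SF T R σ h) (hQ : KEt T R Q) (ε : ℝ) (a c : Fin m) :
    ContDiffOn ℝ ∞ (fun x => XS ε σ h Q x a c) T :=
  contDiffOn_const.mul (sm_core hS hQ a c)

/-- `cdb l X = ε h τ_lᴴ K σ`. -/
theorem cdb_XS (hS : SF T R σ h) (hQ : KEt T R Q) (hx : x ∈ T) (ε : ℝ) (l : Fin n)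
    (a c : Fin m) : cdb l (fun y => XS ε σ h Q y a c) x =
      (ε : ℂ) * (h x * ((tauS σ h Q l x)ᴴ * (Q x)⁻¹ * σ x)) a c := by
  have hT := hQ.et.isOpen
  have hd : DifferentiableAt ℝ (fun y => (h y * (σ y)ᴴ * (Q y)⁻¹ * σ y) a c) x :=
    ((sm_core hS hQ a c).contDiffAt (hT.mem_nhds hx)).differentiableAt (by simp)
  have e1 : cdb l (fun y => XS ε σ h Q y a c) x =
      (ε : ℂ) * cdb l (fun y => (h y * (σ y)ᴴ * (Q y)⁻¹ * σ y) a c) x :=
    Pool.Agent.Helper62.HS.cdb_const_mul l (ε : ℂ) _ x hd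
  have e2 := congrFun (congrFun (cdbR_mul hT hx (sm_B' hT hS hQ) (sm_sigma' hT hS) l) a) c
  have e3 : cdb l (fun y => (h y * (σ y)ᴴ * (Q y)⁻¹ * σ y) a c) x =
      (h x * ((tauS σ h Q l x)ᴴ * (Q x)⁻¹ * σ x)) a c := by
    refine (show _ = _ from e2).trans ?_
    rw [cdbR_B' hS hQ hx l, cdbR_holo hT hx hS.holo l, Matrix.mul_zero, add_zero]
    simp only [Matrix.mul_assoc]
  rw [e1, e3]

theorem tau_diag (hS : SF T R σ h) (hQ : KEt T R Q) (hH : KEt T R H) (hx : x ∈ T)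
    (l : Fin n) : (Matrix.trace (tauS σ h Q l x * h x * (tauS σ h Q l x)ᴴ * (Q x)⁻¹)).re ≤
      (Matrix.trace (H x)).re * (Matrix.trace (Q x * (H x)⁻¹)).re * AAs σ h Q x := by
  have hK := (hQ.posDef x hx).inv.posSemidef
  have hh := (hS.posDef x hx).posSemidef
  have h1 := diag_le (hQ.posDef x hx) (hH.posDef x hx)
    (fun k l => Matrix.trace (tauS σ h Q k x * h x * (tauS σ h Q l x)ᴴ * (Q x)⁻¹))
    (fun U hU => grad_nonneg hU hK hh (fun k => tauS σ h Q k x))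
  refine le_trans ?_ h1
  rw [Complex.re_sum]
  exact Finset.single_le_sum (f := fun k =>
    (Matrix.trace (tauS σ h Q k x * h x * (tauS σ h Q k x)ᴴ * (Q x)⁻¹)).re)
    (fun k _ => trace_nonneg (hh.mul_mul_conjTranspose_same _) hK) (Finset.mem_univ l)

end fields

theorem bound_C {n m : ℕ} {T : Set (Cn n)} {G : Type u} {R : G → Cn n → Cn n → Prop}
    {σ : Cn n → Matrix (Fin n) (Fin m) ℂ} {h : Cn n → Matrix (Fin m) (Fin m) ℂ}
    {H : Cn n → Matrix (Fin n) (Fin n) ℂ} [Group G] (hH : KEt T R H) (hS : SF T R σ h)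
    {C : Set (Cn n)} (hC : C ⊆ T) (hCc : IsCompact C) :
    ∃ B : ℝ, 1 ≤ B ∧ ∀ x ∈ C, (∀ a b, ‖h x a b‖ ≤ B) ∧ (Matrix.trace (h x)⁻¹).re ≤ B ∧
      (Matrix.trace (H x)).re ≤ B := by
  have h1 : ∀ q : Fin m × Fin m, ∃ B : ℝ, ∀ x ∈ C, ‖h x q.1 q.2‖ ≤ B := fun q =>
    hCc.exists_bound_of_continuousOn ((hS.smooth q.1 q.2).continuousOn.mono hC)
  choose B1 hB1 using h1
  have hinv : SmM (fun x => (h x)⁻¹) T :=
    SmM.inv (X := h) hS.smooth fun x hx => (hS.posDef x hx).det_pos.ne'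
  obtain ⟨B2, hB2⟩ := hCc.exists_bound_of_continuousOn (hinv.trace.continuousOn.mono hC)
  have hHs : SmM H T := hH.smooth
  obtain ⟨B3, hB3⟩ := hCc.exists_bound_of_continuousOn (hHs.trace.continuousOn.mono hC)
  have hs : 0 ≤ ∑ q, |B1 q| := Finset.sum_nonneg fun q _ => abs_nonneg _
  refine ⟨1 + (∑ q, |B1 q|) + |B2| + |B3|, ?_, fun x hx => ⟨fun a b => ?_, ?_, ?_⟩⟩
  · linarith [abs_nonneg B2, abs_nonneg B3]
  · have h2 := hB1 (a, b) x hx
    have h3 : |B1 (a, b)| ≤ ∑ q, |B1 q| :=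
      Finset.single_le_sum (f := fun q => |B1 q|) (fun q _ => abs_nonneg _)
        (Finset.mem_univ (a, b))
    have h4 : ‖h x a b‖ ≤ |B1 (a, b)| := h2.trans (le_abs_self _)
    linarith [abs_nonneg B2, abs_nonneg B3]
  · have h2 := (Complex.re_le_norm _).trans (hB2 x hx)
    linarith [le_abs_self B2, abs_nonneg B3]
  · have h2 := (Complex.re_le_norm _).trans (hB3 x hx)
    linarith [le_abs_self B3, abs_nonneg B2]

/-- FDB. -/
theorem t : S_FDB.{u} := by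
  intro n m T G _ R H σ h hH hS
  refine ⟨fun ε Q hε hQ => ⟨sm_XS hS hQ ε, fun x hx => ?_⟩, fun C hC hCc => ?_⟩
  · have hKh : ((Q x)⁻¹).IsHermitian := (hQ.posDef x hx).inv.isHermitian
    have hhh : (h x).IsHermitian := (hS.posDef x hx).isHermitian
    have e1 : XS ε σ h Q x * h x = (ε : ℂ) • ((σ x * h x)ᴴ * (Q x)⁻¹ * (σ x * h x)) := by
      unfold XS
      rw [Matrix.smul_mul, Matrix.conjTranspose_mul, hhh.eq]
      simp only [Matrix.mul_assoc]
    have hp : (XS ε σ h Q x * h x).PosSemidef := by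
      rw [e1]
      exact ((hQ.posDef x hx).inv.posSemidef.conjTranspose_mul_mul_same _).smul
        (Complex.zero_le_real.2 hε.le)
    refine ⟨?_, hp, ?_⟩
    · have h1 := hp.isHermitian.eq
      rw [Matrix.conjTranspose_mul, hhh.eq] at h1
      exact h1.symm
    · rw [Complex.ofReal_mul, tS_real' hS hQ hx]
      unfold XS gS
      rw [Matrix.trace_smul, smul_eq_mul, Matrix.trace_mul_comm]
      simp only [Matrix.mul_assoc]
  · obtain ⟨B, hB1, hB⟩ := bound_C hH hS hC hCc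
    have hB0 : 0 ≤ B := by linarith
    set mm : ℝ := (m : ℝ) + 1 with hmm
    have hm0 : (0 : ℝ) ≤ m := Nat.cast_nonneg m
    have hmm1 : 1 ≤ mm := by rw [hmm]; linarith
    refine ⟨mm ^ 2 * B ^ 5, by positivity, fun ε Q hε hQ x hx => ?_⟩
    have hxT := hC hx
    obtain ⟨b1, b2, b3⟩ := hB x hx
    have hK := (hQ.posDef x hxT).inv.posSemidef
    have hh := hS.posDef x hxT
    have ht0 : 0 ≤ tS σ h Q x := trace_nonneg (hh.posSemidef.mul_mul_conjTranspose_same _) hK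
    have hg0 : 0 ≤ (Matrix.trace (Q x * (H x)⁻¹)).re :=
      trace_nonneg (hQ.posDef x hxT).posSemidef (hH.posDef x hxT).inv.posSemidef
    have ha0 : 0 ≤ AAs σ h Q x := (aaps_rect hK hh.posSemidef (fun k => tauS σ h Q k x) (σ x)).1
    refine ⟨fun a c => ?_, fun l a c => ?_⟩
    · have e1 : XS ε σ h Q x a c = (ε : ℂ) * (h x * ((σ x)ᴴ * (Q x)⁻¹ * σ x)) a c := by
        unfold XS
        rw [Matrix.smul_apply, smul_eq_mul]
        simp only [Matrix.mul_assoc]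
      rw [e1, norm_mul, Complex.norm_real, Real.norm_of_nonneg hε.le]
      have h1 := mul_le_mul_of_nonneg_left (pt_entry hK hh (σ x) b1 b2 a c) hε.le
      refine h1.trans ?_
      have e2 : ε * (m * B * (B * (Matrix.trace (σ x * h x * (σ x)ᴴ * (Q x)⁻¹)).re)) =
          (m * B ^ 2) * (ε * tS σ h Q x) := by
        unfold tS gS
        ring
      rw [e2]
      refine mul_le_mul_of_nonneg_right ?_ (mul_nonneg hε.le ht0)
      have h2 : (m : ℝ) ≤ mm ^ 2 := by nlinarith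
      have h3 : B ^ 2 ≤ B ^ 5 := pow_le_pow_right₀ hB1 (by norm_num)
      exact mul_le_mul h2 h3 (by positivity) (by positivity)
    · rw [cdb_XS hS hQ hxT ε l a c, norm_mul, Complex.norm_real, Real.norm_of_nonneg hε.le,
        mul_pow]
      have h1 := mul_le_mul_of_nonneg_left
        (pt_deriv hK hh (tauS σ h Q l x) (σ x) hB0 b1 b2 a c) (sq_nonneg ε)
      refine h1.trans ?_
      have h2 := tau_diag hS hQ hH hxT l
      have h2' : (Matrix.trace (tauS σ h Q l x * h x * (tauS σ h Q l x)ᴴ * (Q x)⁻¹)).re ≤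
          B * (Matrix.trace (Q x * (H x)⁻¹)).re * AAs σ h Q x :=
        h2.trans (mul_le_mul_of_nonneg_right (mul_le_mul_of_nonneg_right b3 hg0) ha0)
      have h3 := mul_le_mul_of_nonneg_right h2' ht0
      have h4 : 0 ≤ ε ^ 2 * ((m * B) ^ 2 * B ^ 2) := by positivity
      have h5 := mul_le_mul_of_nonneg_left h3 h4
      have e2 : ε ^ 2 * ((m * B) ^ 2 * (B ^ 2 *
          ((Matrix.trace (tauS σ h Q l x * h x * (tauS σ h Q l x)ᴴ * (Q x)⁻¹)).re *
            (Matrix.trace (σ x * h x * (σ x)ᴴ * (Q x)⁻¹)).re))) =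
          ε ^ 2 * ((m * B) ^ 2 * B ^ 2) *
          ((Matrix.trace (tauS σ h Q l x * h x * (tauS σ h Q l x)ᴴ * (Q x)⁻¹)).re *
            tS σ h Q x) := by
        unfold tS gS
        ring
      rw [e2]
      refine h5.trans ?_
      have e3 : ε ^ 2 * ((m * B) ^ 2 * B ^ 2) *
          (B * (Matrix.trace (Q x * (H x)⁻¹)).re * AAs σ h Q x * tS σ h Q x) =
          ((m : ℝ) ^ 2 * B ^ 5) * ((Matrix.trace (Q x * (H x)⁻¹)).re * (ε * AAs σ h Q x) *
            (ε * tS σ h Q x)) := by ring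
      have e4 : mm ^ 2 * B ^ 5 * (Matrix.trace (Q x * (H x)⁻¹)).re * (ε * AAs σ h Q x) *
          (ε * tS σ h Q x) = (mm ^ 2 * B ^ 5) * ((Matrix.trace (Q x * (H x)⁻¹)).re *
            (ε * AAs σ h Q x) * (ε * tS σ h Q x)) := by ring
      rw [e3, e4]
      refine mul_le_mul_of_nonneg_right ?_ (by positivity)
      refine mul_le_mul_of_nonneg_right ?_ (by positivity)
      exact pow_le_pow_left₀ hm0 (by rw [hmm]; linarith) 2


end Pool.Agent.Helper61.FM.FDB
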